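import Pool.Agent.Lib.MP_d57abb_nt.TA.Scale

/-!
# Windows of scales: the good scale (entropy decrement), uniformly in the start of the window

The proof of `good_scale` (`TA/Scale`), applied to the scales `b + i`, `i < I`, with bounds independent of `b`.
-/

namespace Pool.Agent.Lib.MP_d57abb_nt.AW

open Finset Pool.Agent.Lib.MP_d57abb_nt Pool.Agent.Lib.MP_d57abb_nt.TA

private theorem ScaleW_step {C₁ C₂ τ τ' : ℝ} (hC₁ : 0 ≤ C₁) (hC₂ : 0 ≤ C₂) (hτ' : 0 ≤ τ')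
    (hτ'1 : τ' ≤ 1) {ρ κ I i₀ : ℕ} (hρ : 1 ≤ ρ) (hI : 1 ≤ I) {h h' w r : ℕ → ℝ}
    (H1 : ∀ i, 0 ≤ w i) (H2 : ∀ i, w i ≤ h i) (H3 : ∀ i, h i ≤ C₂ * 4 ^ ρ)
    (H4' : ∀ i, r i ≤ C₁ * 4 ^ κ)
    (H5 : ∀ i, i₀ ≤ i → r i ≤ 4 ^ κ * (1 + τ'))
    (H6 : ∀ i, h' i ≤ r i * (2 + h (i + κ) - w (i + κ)) + 4 * ρ * 4 ^ ρ)
    (hκ : (ρ : ℝ) ^ 3 ≤ 4 ^ κ)
    (e1 : τ' * (2 + C₂) ≤ τ / 3) (e2 : 2 * κ * (2 + C₂) ≤ τ / 3 * I)
    (e3 : i₀ * C₁ * (2 + C₂) ≤ τ / 3 * I) :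
    (∑ i ∈ range I, h' i) / (I * 4 ^ (ρ + κ)) ≤
      (∑ i ∈ range I, h i) / (I * 4 ^ ρ) - (∑ i ∈ range I, w i) / (I * 4 ^ ρ) +
        6 / (ρ : ℝ) ^ 2 + τ := by
  set G : ℝ := 2 + C₂ * 4 ^ ρ with hG
  set g : ℕ → ℝ := fun i => 2 + h i - w i with hg
  have hρ0 : (0 : ℝ) < ρ := by exact_mod_cast hρ
  have hI0 : (0 : ℝ) < I := by exact_mod_cast hI
  have hr0 : (0 : ℝ) < 4 ^ ρ := by positivity
  have hk0 : (0 : ℝ) < 4 ^ κ := by positivity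
  have hG0 : 0 ≤ G := by rw [hG]; positivity
  have g0 : ∀ i, 0 ≤ g i := fun i => by
    have := H2 i
    simp only [hg]
    linarith
  have gG : ∀ i, g i ≤ G := fun i => by
    have h1 := H3 i
    have h2 := H1 i
    simp only [hg, hG]
    linarith
  have hGr : G ≤ (2 + C₂) * 4 ^ ρ := by
    have h1 : (1 : ℝ) ≤ 4 ^ ρ := one_le_pow₀ (by norm_num)
    rw [hG]
    nlinarith
  -- pointwise
  have S1 : ∀ i, h' i ≤ 4 ^ κ * (1 + τ') * g (κ + i) + (if i < i₀ then C₁ * 4 ^ κ * G else 0) +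
      4 * ρ * 4 ^ ρ := by
    intro i
    refine (H6 i).trans ?_
    have hgi : 2 + h (i + κ) - w (i + κ) = g (κ + i) := by
      simp only [hg]
      rw [add_comm i κ]
    rw [hgi]
    have h1 := g0 (κ + i)
    have h2 := gG (κ + i)
    have h3 : r i * g (κ + i) ≤ 4 ^ κ * (1 + τ') * g (κ + i) +
        (if i < i₀ then C₁ * 4 ^ κ * G else 0) := by
      split_ifs with hi
      · have h4 : r i * g (κ + i) ≤ C₁ * 4 ^ κ * g (κ + i) :=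
          mul_le_mul_of_nonneg_right (H4' i) h1
        have h5 : C₁ * 4 ^ κ * g (κ + i) ≤ C₁ * 4 ^ κ * G :=
          mul_le_mul_of_nonneg_left h2 (by positivity)
        have h6 : 0 ≤ 4 ^ κ * (1 + τ') * g (κ + i) := by positivity
        linarith
      · have h4 : r i * g (κ + i) ≤ 4 ^ κ * (1 + τ') * g (κ + i) :=
          mul_le_mul_of_nonneg_right (H5 i (not_lt.1 hi)) h1
        linarith
    linarith
  have S2 : ∑ i ∈ range I, h' i ≤ 4 ^ κ * (1 + τ') * (∑ i ∈ range I, g (κ + i)) +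
      i₀ * (C₁ * 4 ^ κ * G) + I * (4 * ρ * 4 ^ ρ) := by
    refine (Finset.sum_le_sum fun i _ => S1 i).trans ?_
    rw [Finset.sum_add_distrib, Finset.sum_add_distrib, ← Finset.mul_sum, Finset.sum_const,
      card_range, nsmul_eq_mul]
    have h1 : ∑ i ∈ range I, (if i < i₀ then C₁ * 4 ^ κ * G else 0) ≤ i₀ * (C₁ * 4 ^ κ * G) := by
      rw [← Finset.sum_filter, Finset.sum_const, nsmul_eq_mul]
      refine mul_le_mul_of_nonneg_right ?_ (by positivity)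
      have h2 : ((range I).filter (fun i => i < i₀)).card ≤ (range i₀).card := by
        refine Finset.card_le_card fun x hx => ?_
        rw [Finset.mem_filter] at hx
        exact Finset.mem_range.2 hx.2
      rw [card_range] at h2
      exact_mod_cast h2
    linarith
  have S3 : ∑ i ∈ range I, g (κ + i) ≤ ∑ i ∈ range I, g i + κ * G := by
    have h1 := Finset.sum_range_add g κ I
    have h2 := Finset.sum_range_add g I κ
    rw [add_comm κ I] at h1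
    rw [h1] at h2
    have h3 : 0 ≤ ∑ i ∈ range κ, g i := Finset.sum_nonneg fun i _ => g0 i
    have h4 : ∑ i ∈ range κ, g (I + i) ≤ κ * G := by
      refine (Finset.sum_le_sum fun i _ => gG (I + i)).trans ?_
      rw [Finset.sum_const, card_range, nsmul_eq_mul]
    linarith
  have S4 : ∑ i ∈ range I, g i = 2 * I + ∑ i ∈ range I, h i - ∑ i ∈ range I, w i := by
    simp only [hg]
    rw [Finset.sum_sub_distrib, Finset.sum_add_distrib, Finset.sum_const, card_range, nsmul_eq_mul]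
    ring
  have S5 : ∑ i ∈ range I, g i ≤ I * G := by
    refine (Finset.sum_le_sum fun i _ => gG i).trans ?_
    rw [Finset.sum_const, card_range, nsmul_eq_mul]
  set Sh := ∑ i ∈ range I, h i with hSh
  set Sw := ∑ i ∈ range I, w i with hSw
  have S6 : ∑ i ∈ range I, h' i ≤ 4 ^ κ * (Sh - Sw) + 4 ^ κ * (2 * I) +
      4 ^ κ * (G * (τ' * I + 2 * κ + i₀ * C₁)) + I * (4 * ρ * 4 ^ ρ) := by
    have h1 : (1 + τ') * (∑ i ∈ range I, g (κ + i)) ≤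
        (2 * I + Sh - Sw) + G * (τ' * I + 2 * κ) := by
      have h2 : (1 + τ') * (∑ i ∈ range I, g (κ + i)) ≤
          (1 + τ') * (∑ i ∈ range I, g i + κ * G) :=
        mul_le_mul_of_nonneg_left S3 (by linarith)
      have h3 : τ' * (∑ i ∈ range I, g i) ≤ τ' * (I * G) := mul_le_mul_of_nonneg_left S5 hτ'
      have h4 : τ' * (κ * G) ≤ 1 * (κ * G) := mul_le_mul_of_nonneg_right hτ'1 (by positivity)
      rw [← S4]
      nlinarith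
    have h2 := mul_le_mul_of_nonneg_left h1 hk0.le
    nlinarith
  have S7 : G * (τ' * I + 2 * κ + i₀ * C₁) ≤ 4 ^ ρ * (τ * I) := by
    have h1 : G * (τ' * I + 2 * κ + i₀ * C₁) ≤ (2 + C₂) * 4 ^ ρ * (τ' * I + 2 * κ + i₀ * C₁) :=
      mul_le_mul_of_nonneg_right hGr (by positivity)
    have h2 : (2 + C₂) * (τ' * I + 2 * κ + i₀ * C₁) ≤ τ * I := by
      have h3 : τ' * (2 + C₂) * I ≤ τ / 3 * I := mul_le_mul_of_nonneg_right e1 hI0.le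
      nlinarith
    have h3 := mul_le_mul_of_nonneg_left h2 hr0.le
    nlinarith
  have S8 : (2 : ℝ) ≤ 4 ^ ρ * (2 / (ρ : ℝ) ^ 2) := by
    have h1 : (ρ : ℝ) ^ 2 ≤ 4 ^ ρ := by
      have h2 : (ρ : ℝ) ≤ 2 ^ ρ := by exact_mod_cast (Nat.lt_two_pow_self (n := ρ)).le
      calc (ρ : ℝ) ^ 2 ≤ (2 ^ ρ) ^ 2 := pow_le_pow_left₀ hρ0.le h2 2
        _ = 4 ^ ρ := by rw [← pow_mul, mul_comm, pow_mul]; norm_num
    rw [mul_div_assoc', le_div_iff₀ (by positivity)]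
    linarith
  have S9 : 4 * (ρ : ℝ) ≤ 4 ^ κ * (4 / (ρ : ℝ) ^ 2) := by
    rw [mul_div_assoc', le_div_iff₀ (by positivity)]
    nlinarith
  have key : ∑ i ∈ range I, h' i ≤ (Sh / (I * 4 ^ ρ) - Sw / (I * 4 ^ ρ) + 6 / (ρ : ℝ) ^ 2 + τ) *
      (I * 4 ^ (ρ + κ)) := by
    have h1 : (Sh / (I * 4 ^ ρ) - Sw / (I * 4 ^ ρ) + 6 / (ρ : ℝ) ^ 2 + τ) * (I * 4 ^ (ρ + κ)) =
        4 ^ κ * (Sh - Sw) + 4 ^ κ * (I * (4 ^ ρ * (2 / (ρ : ℝ) ^ 2))) +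
          I * ((4 ^ κ * (4 / (ρ : ℝ) ^ 2)) * 4 ^ ρ) + 4 ^ κ * (4 ^ ρ * (τ * I)) := by
      rw [pow_add]
      field_simp
      ring
    rw [h1]
    have h2 := mul_le_mul_of_nonneg_left S7 hk0.le
    have h3 := mul_le_mul_of_nonneg_left (mul_le_mul_of_nonneg_left S8 hI0.le) hk0.le
    have h4 := mul_le_mul_of_nonneg_left (mul_le_mul_of_nonneg_right S9 hr0.le) hI0.le
    have h5 : 4 ^ κ * (2 * (I : ℝ)) = 4 ^ κ * (I * 2) := by ring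
    rw [h5] at S6
    linarith
  rw [div_le_iff₀ (by positivity)]
  exact key

private theorem ScaleW_core {C₁ C₂ : ℝ} (hC₁ : 0 ≤ C₁) (hC₂ : 0 ≤ C₂) {hh ww rr : ℕ → ℕ → ℕ → ℝ}
    (H1 : ∀ b ρ i, 0 ≤ ww b ρ i) (H2 : ∀ b ρ i, ww b ρ i ≤ hh b ρ i)
    (H3 : ∀ b ρ i, hh b ρ i ≤ C₂ * 4 ^ ρ)
    (H4' : ∀ b κ i, rr b κ i ≤ C₁ * 4 ^ κ)
    (H5 : ∀ κ, ∀ τ' : ℝ, 0 < τ' → ∃ i₀, ∀ b i, i₀ ≤ i → rr b κ i ≤ 4 ^ κ * (1 + τ'))
    (H6 : ∀ b ρ κ i, 1 ≤ ρ →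
      hh b (ρ + κ) i ≤ rr b κ i * (2 + hh b ρ (i + κ) - ww b ρ (i + κ)) + 4 * ρ * 4 ^ ρ)
    {δ : ℝ} (hδ : 0 < δ) (ρ₀ : ℕ) :
    ∃ J : ℕ, ∃ I₀ : ℕ, ∀ I : ℕ, I₀ ≤ I → ∀ b : ℕ, ∃ ρ : ℕ, ρ₀ ≤ ρ ∧ ρ ≤ J ∧
      (∑ i ∈ range I, ww b ρ i) / I ≤ δ * 4 ^ ρ / ρ := by
  obtain ⟨J, τ, hτ, hJ⟩ := seq_lemma C₂ 6 δ hC₂ (by norm_num) hδ (max ρ₀ 1)
  set τ' : ℝ := min 1 (τ / (3 * (2 + C₂))) with hτ'
  have hτ'0 : 0 < τ' := lt_min one_pos (by positivity)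
  have hτ'1 : τ' ≤ 1 := min_le_left _ _
  have e1 : τ' * (2 + C₂) ≤ τ / 3 := by
    have h1 : τ' ≤ τ / (3 * (2 + C₂)) := min_le_right _ _
    calc τ' * (2 + C₂) ≤ τ / (3 * (2 + C₂)) * (2 + C₂) :=
          mul_le_mul_of_nonneg_right h1 (by positivity)
      _ = τ / 3 := by field_simp
  choose f hf using fun κ => H5 κ τ' hτ'0
  set K : ℕ := 2 * Nat.log 2 J + 2 with hK
  set i₁ : ℕ := (range (K + 1)).sup f with hi₁
  obtain ⟨n₁, hn₁⟩ := exists_nat_ge ((2 * K * (2 + C₂)) / (τ / 3))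
  obtain ⟨n₂, hn₂⟩ := exists_nat_ge ((i₁ * C₁ * (2 + C₂)) / (τ / 3))
  refine ⟨J, n₁ + n₂ + 1, fun I hI b => ?_⟩
  have H1b := H1 b
  have H2b := H2 b
  have H3b := H3 b
  have H4b := H4' b
  have H6b := H6 b
  have hI1 : 1 ≤ I := by omega
  have hI0 : (0 : ℝ) < I := by exact_mod_cast hI1
  have hu0 : ∀ ρ, 0 ≤ (∑ i ∈ range I, hh b ρ i) / (I * 4 ^ ρ) := fun ρ =>
    div_nonneg (Finset.sum_nonneg fun i _ => (H1b ρ i).trans (H2b ρ i)) (by positivity)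
  have huM : ∀ ρ, (∑ i ∈ range I, hh b ρ i) / (I * 4 ^ ρ) ≤ C₂ := fun ρ => by
    rw [div_le_iff₀ (by positivity)]
    refine (Finset.sum_le_sum fun i _ => H3b ρ i).trans ?_
    rw [Finset.sum_const, card_range, nsmul_eq_mul]
    exact le_of_eq (by ring)
  obtain ⟨ρ, h1, h2, h3⟩ := hJ (fun ρ => (∑ i ∈ range I, hh b ρ i) / (I * 4 ^ ρ))
    (fun ρ => (∑ i ∈ range I, ww b ρ i) / (I * 4 ^ ρ)) hu0 huM (by
      intro ρ hρ1 hρ2
      have hρ : 1 ≤ ρ := (le_max_right _ _).trans hρ1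
      have hκK : 2 * Nat.log 2 ρ + 2 ≤ K := by
        have := Nat.log_mono_right (b := 2) hρ2
        omega
      refine ScaleW_step (C₁ := C₁) (C₂ := C₂) (τ := τ) (τ' := τ') (i₀ := i₁)
        (h := hh b ρ) (w := ww b ρ) (r := rr b (2 * Nat.log 2 ρ + 2)) hC₁ hC₂ hτ'0.le hτ'1 hρ hI1
        (H1b ρ) (H2b ρ) (H3b ρ) (H4b _) ?_ (fun i => H6b ρ _ i hρ) ?_ e1 ?_ ?_
      · intro i hi
        refine hf _ b i (le_trans ?_ hi)
        exact Finset.le_sup (f := f) (Finset.mem_range.2 (by omega))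
      · have h5 : ρ < 2 ^ (Nat.log 2 ρ + 1) := Nat.lt_pow_succ_log_self (by norm_num) ρ
        have h6 : (ρ : ℝ) ≤ 2 ^ (Nat.log 2 ρ + 1) := by exact_mod_cast h5.le
        have h7 : (1 : ℝ) ≤ ρ := by exact_mod_cast hρ
        have h8 : (ρ : ℝ) ^ 4 ≤ (2 ^ (Nat.log 2 ρ + 1)) ^ 4 :=
          pow_le_pow_left₀ (by linarith) h6 4
        have h9 : (ρ : ℝ) ^ 3 ≤ (ρ : ℝ) ^ 4 := pow_le_pow_right₀ h7 (by norm_num)
        have h10 : ((2 : ℝ) ^ (Nat.log 2 ρ + 1)) ^ 4 = 4 ^ (2 * Nat.log 2 ρ + 2) := by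
          rw [show (4 : ℝ) = 2 ^ 2 by norm_num, ← pow_mul, ← pow_mul]
          congr 1
          ring
        rw [h10] at h8
        exact h9.trans h8
      · have h5 : (2 * K * (2 + C₂)) / (τ / 3) ≤ I := hn₁.trans (by exact_mod_cast (by omega))
        rw [div_le_iff₀ (by positivity)] at h5
        have h6 : ((2 * Nat.log 2 ρ + 2 : ℕ) : ℝ) ≤ K := by exact_mod_cast hκK
        have h7 : 2 * ((2 * Nat.log 2 ρ + 2 : ℕ) : ℝ) * (2 + C₂) ≤ 2 * K * (2 + C₂) :=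
          mul_le_mul_of_nonneg_right (by linarith) (by positivity)
        linarith
      · have h5 : (i₁ * C₁ * (2 + C₂)) / (τ / 3) ≤ I := hn₂.trans (by exact_mod_cast (by omega))
        rw [div_le_iff₀ (by positivity)] at h5
        linarith)
  refine ⟨ρ, (le_max_left _ _).trans h1, h2, ?_⟩
  have hρ : 1 ≤ ρ := (le_max_right _ _).trans h1
  have hρ0 : (0 : ℝ) < ρ := by exact_mod_cast hρ
  have h4 : (∑ i ∈ range I, ww b ρ i) / I = (∑ i ∈ range I, ww b ρ i) / (I * 4 ^ ρ) * 4 ^ ρ := by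
    field_simp
  rw [h4]
  calc (∑ i ∈ range I, ww b ρ i) / (I * 4 ^ ρ) * 4 ^ ρ ≤ δ / ρ * 4 ^ ρ :=
        mul_le_mul_of_nonneg_right h3 (by positivity)
    _ = δ * 4 ^ ρ / ρ := by ring

private theorem ScaleW_low : ∃ c : ℝ, 0 < c ∧ ∀ A : ℕ, 1 ≤ A →
    c * (A : ℝ) ^ 2 ≤ ((CC A).card : ℝ) := by
  obtain ⟨c, hc, hl⟩ := card_lim
  have h1 : ∀ᶠ A : ℕ in Filter.atTop, c / 2 < ((CC A).card : ℝ) / (A : ℝ) ^ 2 :=
    hl.eventually (lt_mem_nhds (by linarith))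
  obtain ⟨A₀, hA₀⟩ := Filter.eventually_atTop.1 h1
  refine ⟨min (c / 2) (1 / ((A₀ : ℝ) + 1) ^ 2), lt_min (by linarith) (by positivity), ?_⟩
  intro A hA
  have hA0 : (0 : ℝ) < A := by exact_mod_cast hA
  rcases le_total A₀ A with h | h
  · have h2 := hA₀ A h
    rw [lt_div_iff₀ (by positivity)] at h2
    calc min (c / 2) (1 / ((A₀ : ℝ) + 1) ^ 2) * (A : ℝ) ^ 2 ≤ c / 2 * (A : ℝ) ^ 2 :=
          mul_le_mul_of_nonneg_right (min_le_left _ _) (by positivity)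
      _ ≤ _ := h2.le
  · have h2 : (1 : ℝ) ≤ ((CC A).card : ℝ) := by exact_mod_cast card_pos' hA
    have h3 : (A : ℝ) ≤ (A₀ : ℝ) + 1 := by
      have : (A : ℝ) ≤ A₀ := by exact_mod_cast h
      linarith
    calc min (c / 2) (1 / ((A₀ : ℝ) + 1) ^ 2) * (A : ℝ) ^ 2
        ≤ 1 / ((A₀ : ℝ) + 1) ^ 2 * (A : ℝ) ^ 2 :=
          mul_le_mul_of_nonneg_right (min_le_right _ _) (by positivity)
      _ ≤ 1 := by
          rw [one_div_mul_eq_div, div_le_one (by positivity)]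
          exact pow_le_pow_left₀ hA0.le h3 2
      _ ≤ _ := h2

private theorem ScaleW_ratio {c : ℝ} (hc : 0 < c)
    (h : ∀ A : ℕ, 1 ≤ A → c * (A : ℝ) ^ 2 ≤ ((CC A).card : ℝ)) {k A : ℕ} (hA : 1 ≤ A) :
    ((CC (k * A)).card : ℝ) / ((CC A).card : ℝ) ≤ 1 / c * (k : ℝ) ^ 2 := by
  have hA0 : (0 : ℝ) < A := by exact_mod_cast hA
  have h1 := h A hA
  have h0 : (0 : ℝ) < ((CC A).card : ℝ) := lt_of_lt_of_le (by positivity) h1
  have h2 : ((CC (k * A)).card : ℝ) ≤ ((k : ℝ) * A) ^ 2 := by exact_mod_cast card_le_sq (k * A)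
  rw [div_le_iff₀ h0]
  calc ((CC (k * A)).card : ℝ) ≤ ((k : ℝ) * A) ^ 2 := h2
    _ = 1 / c * (k : ℝ) ^ 2 * (c * (A : ℝ) ^ 2) := by field_simp
    _ ≤ 1 / c * (k : ℝ) ^ 2 * ((CC A).card : ℝ) := mul_le_mul_of_nonneg_left h1 (by positivity)

private theorem ScaleW_lim {k : ℕ} (hk : 1 ≤ k) {τ' : ℝ} (hτ' : 0 < τ') : ∃ A₀ : ℕ, ∀ A : ℕ,
    A₀ ≤ A → ((CC (k * A)).card : ℝ) / ((CC A).card : ℝ) ≤ (k : ℝ) ^ 2 * (1 + τ') := by
  obtain ⟨c, hc, hl⟩ := card_lim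
  have hk0 : (0 : ℝ) < k := by exact_mod_cast hk
  have h1 : Filter.Tendsto (fun A : ℕ => k * A) Filter.atTop Filter.atTop :=
    Filter.tendsto_id.const_mul_atTop' (by omega)
  have h2 := hl.comp h1
  have h3 := (h2.div hl hc.ne').const_mul ((k : ℝ) ^ 2)
  rw [div_self hc.ne', mul_one] at h3
  have h4 : ∀ᶠ A : ℕ in Filter.atTop, (k : ℝ) ^ 2 * ((((fun A : ℕ => ((CC A).card : ℝ) /
      (A : ℝ) ^ 2) ∘ fun A : ℕ => k * A) A) / (((CC A).card : ℝ) / (A : ℝ) ^ 2)) <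
      (k : ℝ) ^ 2 * (1 + τ') :=
    h3.eventually (gt_mem_nhds (by nlinarith [pow_pos hk0 2]))
  obtain ⟨A₀, hA₀⟩ := Filter.eventually_atTop.1 (h4.and (Filter.eventually_ge_atTop 1))
  refine ⟨A₀, fun A hA => ?_⟩
  obtain ⟨h5, h6⟩ := hA₀ A hA
  have hA0 : (0 : ℝ) < A := by exact_mod_cast h6
  have h7 : (0 : ℝ) < ((CC A).card : ℝ) := by exact_mod_cast card_pos' h6
  have h8 : (k : ℝ) ^ 2 * ((((fun A : ℕ => ((CC A).card : ℝ) /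
      (A : ℝ) ^ 2) ∘ fun A : ℕ => k * A) A) / (((CC A).card : ℝ) / (A : ℝ) ^ 2)) =
      ((CC (k * A)).card : ℝ) / ((CC A).card : ℝ) := by
    simp only [Function.comp]
    push_cast
    field_simp
  rw [h8] at h5
  exact h5.le

private theorem ScaleW_Y (e ρ A : ℕ) (hρ : 1 ≤ ρ) (hA : 1 ≤ A) :
    Ht (CC A) (Yv (PS (PP e ρ))) ≤ 4 * ρ * 4 ^ ρ := by
  classical
  have hne : (CC A).Nonempty := Finset.card_pos.1 (card_pos' hA)
  have hSP : ∀ p ∈ PS (PP e ρ), SP p ∧ p ≤ PP e ρ := by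
    intro p hp
    unfold PS at hp
    rw [Finset.mem_filter, Finset.mem_Ioc] at hp
    exact ⟨hp.2, hp.1.2⟩
  have h1 := Ht_le_log hne (Yv (PS (PP e ρ)))
    (T := Fintype.piFinset (fun p : PS (PP e ρ) => range ((p : ℕ) + 1))) (by
      intro x _
      rw [Fintype.mem_piFinset]
      intro p
      exact Finset.mem_range.2 (yv_lt (hSP p p.2).1 x))
  refine h1.trans ?_
  have hP : PP e ρ ≤ 4 ^ ρ := by
    unfold PP
    calc 2 ^ (2 * ρ - e) ≤ 2 ^ (2 * ρ) := Nat.pow_le_pow_right (by norm_num) (Nat.sub_le _ _)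
      _ = 4 ^ ρ := by rw [pow_mul]; norm_num
  have hcard : (PS (PP e ρ)).card ≤ 4 ^ ρ := by
    have h2 : (PS (PP e ρ)).card ≤ (Ioc (PP e ρ / 2) (PP e ρ)).card := by
      unfold PS
      exact Finset.card_filter_le _ _
    rw [Nat.card_Ioc] at h2
    omega
  have h3 : (Fintype.piFinset (fun p : PS (PP e ρ) => range ((p : ℕ) + 1))).card ≤
      (4 ^ (ρ + 1)) ^ (4 ^ ρ) := by
    rw [Fintype.card_piFinset]
    calc ∏ p : PS (PP e ρ), (range ((p : ℕ) + 1)).card ≤ ∏ _p : PS (PP e ρ), 4 ^ (ρ + 1) := by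
          refine Finset.prod_le_prod' fun p _ => ?_
          rw [card_range]
          have h4 := (hSP p p.2).2
          have h5 : 1 ≤ 4 ^ ρ := Nat.one_le_pow _ _ (by norm_num)
          rw [pow_succ]
          omega
      _ = (4 ^ (ρ + 1)) ^ (PS (PP e ρ)).card := by
          rw [Finset.prod_const, Finset.card_univ, Fintype.card_coe]
      _ ≤ (4 ^ (ρ + 1)) ^ (4 ^ ρ) := Nat.pow_le_pow_right (by positivity) hcard
  have h4 : 0 < (Fintype.piFinset (fun p : PS (PP e ρ) => range ((p : ℕ) + 1))).card := by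
    rw [Fintype.card_piFinset]
    refine Finset.prod_pos fun p _ => ?_
    rw [card_range]
    omega
  have h5 : Real.log ((Fintype.piFinset (fun p : PS (PP e ρ) => range ((p : ℕ) + 1))).card : ℝ) ≤
      Real.log (((4 : ℝ) ^ (ρ + 1)) ^ (4 ^ ρ)) := by
    refine Real.log_le_log (by exact_mod_cast h4) ?_
    exact_mod_cast h3
  refine h5.trans ?_
  rw [Real.log_pow, Real.log_pow]
  have h6 : Real.log 4 ≤ 2 := by
    have h7 : Real.log 4 = 2 * Real.log 2 := by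
      rw [show (4 : ℝ) = 2 ^ 2 by norm_num, Real.log_pow]
      norm_num
    rw [h7]
    linarith [Real.log_two_lt_d9]
  have h7 : (1 : ℝ) ≤ ρ := by exact_mod_cast hρ
  have h8 : ((ρ + 1 : ℕ) : ℝ) * Real.log 4 ≤ 4 * ρ := by
    push_cast
    have h9 : 0 ≤ Real.log 4 := Real.log_nonneg (by norm_num)
    nlinarith
  calc ((4 ^ ρ : ℕ) : ℝ) * (((ρ + 1 : ℕ) : ℝ) * Real.log 4) ≤ ((4 ^ ρ : ℕ) : ℝ) * (4 * ρ) :=
        mul_le_mul_of_nonneg_left h8 (by positivity)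
    _ = 4 * ρ * 4 ^ ρ := by push_cast; ring

theorem good_scale_w {q : ℕ} (hq : 1 ≤ q) (e : ℕ) {δ : ℝ} (hδ : 0 < δ) (ρ₀ : ℕ) :
    ∃ J : ℕ, ∃ I₀ : ℕ, ∀ I : ℕ, I₀ ≤ I → ∀ b : ℕ, ∃ ρ : ℕ, ρ₀ ≤ ρ ∧ ρ ≤ J ∧
      (∑ i ∈ range I, MI q e ρ (2 ^ (b + i + 1))) / I ≤ δ * 4 ^ ρ / ρ := by
  obtain ⟨c, hc, hlow⟩ := ScaleW_low
  have hlq : 0 ≤ Real.log q := Real.log_nonneg (by exact_mod_cast hq)
  have hl2 : 0 ≤ Real.log 2 := Real.log_nonneg (by norm_num)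
  have h4 : ∀ κ : ℕ, ((2 ^ κ : ℕ) : ℝ) ^ 2 = 4 ^ κ := fun κ => by
    push_cast
    rw [← pow_mul, mul_comm, pow_mul]
    norm_num
  have hA : ∀ i : ℕ, 1 ≤ 2 ^ (i + 1) := fun i => Nat.one_le_pow _ _ (by norm_num)
  have hmul : ∀ κ i : ℕ, 2 ^ κ * 2 ^ (i + 1) = 2 ^ (i + κ + 1) := fun κ i => by
    rw [← pow_add]
    congr 1
    omega
  have G2 : ∀ ρ i : ℕ, MI q e ρ (2 ^ (i + 1)) ≤ Ht (CC (2 ^ (i + 1))) (XX q (2 ^ ρ) (2 ^ (i + 1))) := by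
    intro ρ i
    simp only [MI]
    rw [mi_symm]
    have := Hc_nonneg (CC (2 ^ (i + 1))) (XX q (2 ^ ρ) (2 ^ (i + 1))) (Yv (PS (PP e ρ)))
    linarith
  have G3 : ∀ ρ i : ℕ, Ht (CC (2 ^ (i + 1))) (XX q (2 ^ ρ) (2 ^ (i + 1))) ≤
      1 / c * (2 * Real.log 2 + 2 * Real.log q) * 4 ^ ρ := by
    intro ρ i
    have h5 := XX_le (q := q) (R := 2 ^ ρ) (A := 2 ^ (i + 1)) hq
      (Nat.one_le_pow _ _ (by norm_num)) (hA i)
    refine h5.trans ?_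
    have h6 := ScaleW_ratio hc hlow (k := 2 ^ ρ) (hA i)
    rw [h4] at h6
    calc _ ≤ 1 / c * 4 ^ ρ * (2 * Real.log 2 + 2 * Real.log q) :=
          mul_le_mul_of_nonneg_right h6 (by positivity)
      _ = _ := by ring
  have G4 : ∀ κ i : ℕ, ((CC (2 ^ κ * 2 ^ (i + 1))).card : ℝ) / ((CC (2 ^ (i + 1))).card : ℝ) ≤
      1 / c * 4 ^ κ := by
    intro κ i
    have h6 := ScaleW_ratio hc hlow (k := 2 ^ κ) (hA i)
    rw [h4] at h6
    exact h6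
  have G5 : ∀ κ : ℕ, ∀ τ' : ℝ, 0 < τ' → ∃ i₀ : ℕ, ∀ i : ℕ, i₀ ≤ i →
      ((CC (2 ^ κ * 2 ^ (i + 1))).card : ℝ) / ((CC (2 ^ (i + 1))).card : ℝ) ≤ 4 ^ κ * (1 + τ') := by
    intro κ τ' hτ'
    obtain ⟨A₀, hA₀⟩ := ScaleW_lim (k := 2 ^ κ) (Nat.one_le_pow _ _ (by norm_num)) hτ'
    refine ⟨A₀, fun i hi => ?_⟩
    have h5 : A₀ ≤ 2 ^ (i + 1) := by
      have h6 : i + 1 < 2 ^ (i + 1) := Nat.lt_two_pow_self
      omega
    have h6 := hA₀ _ h5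
    rw [h4] at h6
    exact h6
  have G6 : ∀ ρ κ i : ℕ, 1 ≤ ρ → Ht (CC (2 ^ (i + 1))) (XX q (2 ^ (ρ + κ)) (2 ^ (i + 1))) ≤
      ((CC (2 ^ κ * 2 ^ (i + 1))).card : ℝ) / ((CC (2 ^ (i + 1))).card : ℝ) *
        (2 + Ht (CC (2 ^ (i + κ + 1))) (XX q (2 ^ ρ) (2 ^ (i + κ + 1))) -
          MI q e ρ (2 ^ (i + κ + 1))) + 4 * ρ * 4 ^ ρ := by
    intro ρ κ i hρ
    obtain ⟨yl, yr, hl, hr⟩ := exists_maps (PS (PP e ρ)) (fun p hp => by
      unfold PS at hp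
      classical
      exact (Finset.mem_filter.1 hp).2)
    have hdec := dec (q := q) (R := 2 ^ ρ) (k := 2 ^ κ) (A := 2 ^ (i + 1))
      (Nat.one_le_pow _ _ (by norm_num)) (Nat.one_le_pow _ _ (by norm_num)) (hA i) hl hr
    have hY := ScaleW_Y e ρ (2 ^ (i + 1)) hρ (hA i)
    have hadd := Ht_le_add (CC (2 ^ (i + 1))) (XX q (2 ^ (ρ + κ)) (2 ^ (i + 1)))
      (Yv (PS (PP e ρ)))
    have hk : 2 ^ κ * 2 ^ ρ = 2 ^ (ρ + κ) := by rw [← pow_add, add_comm]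
    rw [hk] at hdec
    have hmi := mi_symm (CC (2 ^ (i + κ + 1))) (Yv (PS (PP e ρ)))
      (XX q (2 ^ ρ) (2 ^ (i + κ + 1)))
    have hr0 : 0 ≤ ((CC (2 ^ κ * 2 ^ (i + 1))).card : ℝ) / ((CC (2 ^ (i + 1))).card : ℝ) := by
      positivity
    have hlog : 2 * Real.log 2 ≤ 2 := by linarith [Real.log_two_lt_d9]
    have hbr : 2 * Real.log 2 + Hc (CC (2 ^ κ * 2 ^ (i + 1)))
        (XX q (2 ^ ρ) (2 ^ κ * 2 ^ (i + 1))) (Yv (PS (PP e ρ))) ≤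
        2 + Ht (CC (2 ^ (i + κ + 1))) (XX q (2 ^ ρ) (2 ^ (i + κ + 1))) -
          MI q e ρ (2 ^ (i + κ + 1)) := by
      rw [hmul, MI]
      linarith
    have h7 := mul_le_mul_of_nonneg_left hbr hr0
    linarith
  refine ScaleW_core (C₁ := 1 / c) (C₂ := 1 / c * (2 * Real.log 2 + 2 * Real.log q))
    (hh := fun b ρ i => Ht (CC (2 ^ (b + i + 1))) (XX q (2 ^ ρ) (2 ^ (b + i + 1))))
    (ww := fun b ρ i => MI q e ρ (2 ^ (b + i + 1)))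
    (rr := fun b κ i => ((CC (2 ^ κ * 2 ^ (b + i + 1))).card : ℝ) / ((CC (2 ^ (b + i + 1))).card : ℝ))
    (by positivity) (by positivity) (fun b ρ i => MI_nonneg q e ρ _) (fun b ρ i => G2 ρ (b + i))
    (fun b ρ i => G3 ρ (b + i)) (fun b κ i => G4 κ (b + i)) ?_ ?_ hδ ρ₀
  · intro κ τ' hτ'
    obtain ⟨i₀, hi₀⟩ := G5 κ τ' hτ'
    exact ⟨i₀, fun b i hi => hi₀ (b + i) (by omega)⟩
  · intro b ρ κ i hρ
    have h := G6 ρ κ (b + i) hρ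
    have e1 : b + i + κ + 1 = b + (i + κ) + 1 := by omega
    rw [e1] at h
    exact h

end Pool.Agent.Lib.MP_d57abb_nt.AW
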