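import Pool.Agent.Lib.MP_d57abb_nt.AS.Single
import Pool.Agent.Lib.MP_d57abb_nt.AS.ConvK
import Pool.Agent.Lib.MP_d57abb_nt.AW.ScaleW

/-!
# Windows of scales: in every window of bounded length most scales are small after averaging over the primes

The proof of `avgK` (`AS/AvgK`) in the window `B ≤ j < B + I`, `I` fixed, `B` large.
-/

namespace Pool.Agent.Lib.MP_d57abb_nt.AW

open Finset Pool.Agent.Lib.MP_d57abb_nt Pool.Agent.Lib.MP_d57abb_nt.TA Pool.Agent.Lib.MP_d57abb_nt.TZ Pool.Agent.Lib.MP_d57abb_nt.AS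

private theorem AvgW_mean' {ι : Type*} (S : Finset ι) (f : ι → ℂ) {ε : ℝ} (hε : 0 ≤ ε)
    (h : ∀ p ∈ S, ‖f p‖ ≤ ε) : ‖(∑ p ∈ S, f p) / (S.card : ℂ)‖ ≤ ε := by
  rw [norm_div, Complex.norm_natCast]
  rcases Nat.eq_zero_or_pos S.card with h0 | h0
  · rw [h0, Nat.cast_zero, div_zero]
    exact hε
  · rw [div_le_iff₀ (by exact_mod_cast h0)]
    refine (norm_sum_le _ _).trans ?_
    refine (Finset.sum_le_sum h).trans ?_
    rw [Finset.sum_const, nsmul_eq_mul, mul_comm]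

open Classical in
private theorem AvgW_PS_mem {P p : ℕ} (hp : p ∈ PS P) : SP p := by
  rw [PS, mem_filter] at hp
  exact hp.2

private theorem AvgW_PS_nonempty (e : ℕ) : ∃ ρ₀ : ℕ, ∀ ρ : ℕ, ρ₀ ≤ ρ → 0 < (PS (PP e ρ)).card := by
  obtain ⟨P₀, hP₀⟩ := card_PS
  refine ⟨e + P₀ + 1, fun ρ hρ => ?_⟩
  have h2 : P₀ + 1 ≤ 2 * ρ - e := by omega
  have h3 : P₀ + 1 < 2 ^ (P₀ + 1) := Nat.lt_two_pow_self
  have h4 : 2 ^ (P₀ + 1) ≤ PP e ρ := Nat.pow_le_pow_right (by norm_num) h2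
  have h5 := hP₀ (PP e ρ) (by omega)
  have h6 : (1 : ℝ) < (PP e ρ : ℝ) := by
    have : 1 < PP e ρ := by
      have : 2 ≤ 2 ^ (P₀ + 1) := by
        calc 2 = 2 ^ 1 := by norm_num
          _ ≤ _ := Nat.pow_le_pow_right (by norm_num) (by omega)
      omega
    exact_mod_cast this
  have h7 : 0 < Real.log (PP e ρ : ℝ) := Real.log_pos h6
  have h8 : (0 : ℝ) < (PP e ρ : ℝ) / (16 * Real.log (PP e ρ : ℝ)) := by positivity
  exact_mod_cast h8.trans_le h5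

private theorem AvgW_min {ι : Type*} (s : Finset ι) (f : ι → ℝ) (h : ∀ i ∈ s, 0 < f i) :
    ∃ δ : ℝ, 0 < δ ∧ ∀ i ∈ s, δ ≤ f i := by
  classical
  induction s using Finset.induction_on with
  | empty => exact ⟨1, one_pos, fun i hi => absurd hi (Finset.notMem_empty i)⟩
  | insert a s ha ih =>
    obtain ⟨δ, h0, h1⟩ := ih fun i hi => h i (Finset.mem_insert_of_mem hi)
    refine ⟨min δ (f a), lt_min h0 (h a (Finset.mem_insert_self a s)), fun i hi => ?_⟩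
    rcases Finset.mem_insert.1 hi with rfl | hi
    · exact min_le_right _ _
    · exact (min_le_left _ _).trans (h1 i hi)

private theorem AvgW_abs {D : ℕ → ℂ} {σ n S I b : ℕ} {ε η : ℝ} {m : ℕ → ℝ} (hm : ∀ i, 0 ≤ m i)
    (hη : 0 ≤ η) (hσ : σ ≤ S)
    (h : ∀ i, b ≤ i → ‖D (i + σ)‖ ≤ ε + ∑ s ∈ range n, η * (1 + m (i + s))) :
    ∑ j ∈ range I, ‖D (b + S + j)‖ ≤
      ε * I + η * n * I + η * n * ∑ i ∈ range (I + n + S), m (b + i) := by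
  have h1 : ∀ j, ‖D (b + S + j)‖ ≤ ε + ∑ s ∈ range n, η * (1 + m (b + (S - σ + s + j))) := by
    intro j
    have h2 := h (b + (S - σ) + j) (by omega)
    have h3 : b + (S - σ) + j + σ = b + S + j := by omega
    rw [h3] at h2
    refine h2.trans (le_of_eq ?_)
    congr 1
    refine Finset.sum_congr rfl fun s _ => ?_
    have h4 : b + (S - σ) + j + s = b + (S - σ + s + j) := by omega
    rw [h4]
  have h3 : ∀ s ∈ range n, ∑ j ∈ range I, m (b + (S - σ + s + j)) ≤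
      ∑ i ∈ range (I + n + S), m (b + i) := by
    intro s hs
    have hs' := mem_range.1 hs
    have e1 : ∑ i ∈ range ((S - σ + s) + I), m (b + i) =
        ∑ i ∈ range (S - σ + s), m (b + i) + ∑ i ∈ range I, m (b + (S - σ + s + i)) :=
      Finset.sum_range_add (fun i => m (b + i)) _ _
    have e2 : 0 ≤ ∑ i ∈ range (S - σ + s), m (b + i) := Finset.sum_nonneg fun i _ => hm _
    have e3 : ∑ i ∈ range ((S - σ + s) + I), m (b + i) ≤ ∑ i ∈ range (I + n + S), m (b + i) :=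
      Finset.sum_le_sum_of_subset_of_nonneg (Finset.range_mono (by omega)) fun i _ _ => hm _
    linarith
  have h4 : ∑ j ∈ range I, ∑ s ∈ range n, η * (1 + m (b + (S - σ + s + j))) ≤
      η * n * I + η * n * ∑ i ∈ range (I + n + S), m (b + i) := by
    rw [Finset.sum_comm]
    have e1 : ∀ s ∈ range n, ∑ j ∈ range I, η * (1 + m (b + (S - σ + s + j))) ≤
        η * I + η * ∑ i ∈ range (I + n + S), m (b + i) := by
      intro s hs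
      rw [← Finset.mul_sum, Finset.sum_add_distrib, Finset.sum_const, card_range, nsmul_eq_mul,
        mul_one, mul_add]
      have := mul_le_mul_of_nonneg_left (h3 s hs) hη
      linarith
    refine (Finset.sum_le_sum e1).trans (le_of_eq ?_)
    rw [Finset.sum_const, card_range, nsmul_eq_mul]
    ring
  refine (Finset.sum_le_sum fun j _ => h1 j).trans ?_
  rw [Finset.sum_add_distrib, Finset.sum_const, card_range, nsmul_eq_mul, mul_comm (I : ℝ) ε]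
  linarith

private theorem AvgW_pow {a p j : ℕ} (h : a + p ^ 2 ≤ j) : 2 ^ a * p ^ 2 < 4 ^ j := by
  have h1 : p ^ 2 < 2 ^ (p ^ 2) := Nat.lt_two_pow_self
  calc 2 ^ a * p ^ 2 < 2 ^ a * 2 ^ (p ^ 2) := Nat.mul_lt_mul_of_pos_left h1 (by positivity)
    _ = 2 ^ (a + p ^ 2) := by rw [pow_add]
    _ ≤ 4 ^ (a + p ^ 2) := Nat.pow_le_pow_left (by norm_num) _
    _ ≤ 4 ^ j := Nat.pow_le_pow_right (by norm_num) h

private theorem AvgW_fixed {q : ℕ} {z : ℂ} (hzn : ‖z‖ = 1) {φ ψ : ℝ → ℝ} {a k : ℕ} {La L : ℝ}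
    (hφ : PW φ a La) (hψ : PW ψ k L) {ε η₁ δ : ℝ} (hε : 0 ≤ ε) {E ρ M : ℕ}
    (hconv : ∀ p : ℕ, SP p → ∃ j₀ : ℕ, ∀ j : ℕ, j₀ ≤ j →
      ‖(p : ℂ) * GK φ ψ z (a + k + 9) p (j + (a + k + 1)) -
        ∑ l ∈ range (M + 1), ∑ s ∈ range (2 * (a + k + 1) + 1), (p : ℂ) *
          GP (fun v => gl M l (mu1 v)) (Whs φ ψ (a + k + 1) s (ul M l)) z (k + 5) p (j + s)‖ ≤ ε)
    (hsing : ∀ l s, l ∈ range (M + 1) → s ∈ range (2 * (a + k + 1) + 1) → ∃ i₀ : ℕ, ∀ i : ℕ, i₀ ≤ i →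
      ‖(∑ p ∈ PS (PP E ρ), (p : ℂ) * GP (fun v => gl M l (mu1 v))
        (Whs φ ψ (a + k + 1) s (ul M l)) z (k + 5) p (i + (ρ - (k + 5)))) /
          ((PS (PP E ρ)).card : ℂ)‖ ≤ η₁ * (1 + MI q E ρ (2 ^ i) * ρ / (δ * 4 ^ ρ))) :
    ∃ i₀ : ℕ, ∀ i : ℕ, i₀ ≤ i →
      ‖(∑ p ∈ PS (PP E ρ), SK a φ ψ z (4 ^ (i + (1 + (ρ - (k + 5)) + (a + k + 1))) / p)) /
        ((PS (PP E ρ)).card : ℂ)‖ ≤ ε + ∑ s ∈ range (2 * (a + k + 1) + 1),
          ((M + 1) * η₁) * (1 + MI q E ρ (2 ^ (i + s + 1)) * ρ / (δ * 4 ^ ρ)) := by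
  choose! j₀ hj₀ using hconv
  choose! i₀ hi₀ using hsing
  refine ⟨(PS (PP E ρ)).sup (fun p => j₀ p + (a + p ^ 2)) +
    ∑ l ∈ range (M + 1), ∑ s ∈ range (2 * (a + k + 1) + 1), i₀ l s, fun i hi => ?_⟩
  obtain ⟨j, hj⟩ : ∃ j : ℕ, j = i + 1 + (ρ - (k + 5)) := ⟨_, rfl⟩
  have hjj : i + (1 + (ρ - (k + 5)) + (a + k + 1)) = j + (a + k + 1) := by omega
  rw [hjj]
  have hpj : ∀ p ∈ PS (PP E ρ), j₀ p + (a + p ^ 2) ≤ j := by
    intro p hp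
    have := Finset.le_sup (f := fun p => j₀ p + (a + p ^ 2)) hp
    have h2 : j₀ p + (a + p ^ 2) ≤ (PS (PP E ρ)).sup (fun p => j₀ p + (a + p ^ 2)) := this
    omega
  have hls : ∀ l ∈ range (M + 1), ∀ s ∈ range (2 * (a + k + 1) + 1), i₀ l s ≤ i := by
    intro l hl s hs
    have h1 : i₀ l s ≤ ∑ s ∈ range (2 * (a + k + 1) + 1), i₀ l s :=
      Finset.single_le_sum (f := fun s => i₀ l s) (fun _ _ => Nat.zero_le _) hs
    have h2 : ∑ s ∈ range (2 * (a + k + 1) + 1), i₀ l s ≤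
        ∑ l ∈ range (M + 1), ∑ s ∈ range (2 * (a + k + 1) + 1), i₀ l s :=
      Finset.single_le_sum (f := fun l => ∑ s ∈ range (2 * (a + k + 1) + 1), i₀ l s)
        (fun _ _ => Nat.zero_le _) hl
    omega
  have e1 : ∀ p ∈ PS (PP E ρ), z ^ 2 * SK a φ ψ z (4 ^ (j + (a + k + 1)) / p) =
      (p : ℂ) * GK φ ψ z (a + k + 9) p (j + (a + k + 1)) := by
    intro p hp
    have h1 := hpj p hp
    exact (dilK hφ hψ z (AvgW_PS_mem hp) (AvgW_pow (by omega)) (by omega)).symm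
  have e2 : ‖(∑ p ∈ PS (PP E ρ), SK a φ ψ z (4 ^ (j + (a + k + 1)) / p)) /
      ((PS (PP E ρ)).card : ℂ)‖ =
      ‖(∑ p ∈ PS (PP E ρ), (p : ℂ) * GK φ ψ z (a + k + 9) p (j + (a + k + 1))) /
        ((PS (PP E ρ)).card : ℂ)‖ := by
    rw [← Finset.sum_congr rfl e1, ← Finset.mul_sum, mul_div_assoc, norm_mul, norm_pow, hzn,
      one_pow, one_mul]
  rw [e2]
  have e3 : (∑ p ∈ PS (PP E ρ), (p : ℂ) * GK φ ψ z (a + k + 9) p (j + (a + k + 1))) /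
        ((PS (PP E ρ)).card : ℂ) =
      (∑ p ∈ PS (PP E ρ), ((p : ℂ) * GK φ ψ z (a + k + 9) p (j + (a + k + 1)) -
        ∑ l ∈ range (M + 1), ∑ s ∈ range (2 * (a + k + 1) + 1), (p : ℂ) *
          GP (fun v => gl M l (mu1 v)) (Whs φ ψ (a + k + 1) s (ul M l)) z (k + 5) p (j + s))) /
        ((PS (PP E ρ)).card : ℂ) +
      ∑ l ∈ range (M + 1), ∑ s ∈ range (2 * (a + k + 1) + 1), (∑ p ∈ PS (PP E ρ), (p : ℂ) *
          GP (fun v => gl M l (mu1 v)) (Whs φ ψ (a + k + 1) s (ul M l)) z (k + 5) p (j + s)) /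
        ((PS (PP E ρ)).card : ℂ) := by
    have f1 : ∑ l ∈ range (M + 1), ∑ s ∈ range (2 * (a + k + 1) + 1),
        (∑ p ∈ PS (PP E ρ), (p : ℂ) * GP (fun v => gl M l (mu1 v))
          (Whs φ ψ (a + k + 1) s (ul M l)) z (k + 5) p (j + s)) / ((PS (PP E ρ)).card : ℂ) =
        (∑ p ∈ PS (PP E ρ), ∑ l ∈ range (M + 1), ∑ s ∈ range (2 * (a + k + 1) + 1), (p : ℂ) *
          GP (fun v => gl M l (mu1 v)) (Whs φ ψ (a + k + 1) s (ul M l)) z (k + 5) p (j + s)) /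
          ((PS (PP E ρ)).card : ℂ) := by
      rw [Finset.sum_comm (s := PS (PP E ρ)), Finset.sum_div]
      refine Finset.sum_congr rfl fun l _ => ?_
      rw [Finset.sum_comm (s := PS (PP E ρ)), Finset.sum_div]
    rw [f1, ← add_div, ← Finset.sum_add_distrib]
    refine congrArg (fun w => w / ((PS (PP E ρ)).card : ℂ)) ?_
    refine Finset.sum_congr rfl fun p _ => ?_
    rw [sub_add_cancel]
  rw [e3]
  refine (norm_add_le _ _).trans (add_le_add ?_ ?_)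
  · refine AvgW_mean' _ _ hε fun p hp => ?_
    exact hj₀ p (AvgW_PS_mem hp) j (by have := hpj p hp; omega)
  · have g1 : ∀ l ∈ range (M + 1), ∀ s ∈ range (2 * (a + k + 1) + 1),
        ‖(∑ p ∈ PS (PP E ρ), (p : ℂ) * GP (fun v => gl M l (mu1 v))
          (Whs φ ψ (a + k + 1) s (ul M l)) z (k + 5) p (j + s)) / ((PS (PP E ρ)).card : ℂ)‖ ≤
        η₁ * (1 + MI q E ρ (2 ^ (i + s + 1)) * ρ / (δ * 4 ^ ρ)) := by
      intro l hl s hs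
      have h1 := hi₀ l s hl hs (i + s + 1) (by have := hls l hl s hs; omega)
      have h2 : i + s + 1 + (ρ - (k + 5)) = j + s := by omega
      rw [h2] at h1
      exact h1
    calc ‖∑ l ∈ range (M + 1), ∑ s ∈ range (2 * (a + k + 1) + 1), (∑ p ∈ PS (PP E ρ), (p : ℂ) *
          GP (fun v => gl M l (mu1 v)) (Whs φ ψ (a + k + 1) s (ul M l)) z (k + 5) p (j + s)) /
        ((PS (PP E ρ)).card : ℂ)‖
        ≤ ∑ l ∈ range (M + 1), ∑ s ∈ range (2 * (a + k + 1) + 1),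
          η₁ * (1 + MI q E ρ (2 ^ (i + s + 1)) * ρ / (δ * 4 ^ ρ)) := by
          refine (norm_sum_le _ _).trans (Finset.sum_le_sum fun l hl => ?_)
          exact (norm_sum_le _ _).trans (Finset.sum_le_sum fun s hs => g1 l hl s hs)
      _ = ∑ s ∈ range (2 * (a + k + 1) + 1),
          ((M + 1) * η₁) * (1 + MI q E ρ (2 ^ (i + s + 1)) * ρ / (δ * 4 ^ ρ)) := by
          rw [Finset.sum_const, card_range, nsmul_eq_mul, Finset.mul_sum]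
          refine Finset.sum_congr rfl fun s _ => ?_
          push_cast
          ring

theorem avgKw {q : ℕ} (hq : 1 ≤ q) {z : ℂ} (hz : z ^ q = 1) (hz1 : z ≠ 1) {φ ψ : ℝ → ℝ} {a k : ℕ} {La L : ℝ}
    (hφ : PW φ a La) (hψ : PW ψ k L) {ε : ℝ} (hε : 0 < ε) :
    ∃ e : ℕ, ∀ ρ₀ : ℕ, ∃ J I₀ : ℕ, ∀ I : ℕ, I₀ ≤ I → ∃ B₀ : ℕ, ∀ B : ℕ, B₀ ≤ B →
      ∃ ρ : ℕ, ρ₀ ≤ ρ ∧ ρ ≤ J ∧ 0 < (PS (PP (2 * e) ρ)).card ∧
      (∑ j ∈ range I, ‖(∑ p ∈ PS (PP (2 * e) ρ), SK a φ ψ z (4 ^ (B + j) / p)) /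
        ((PS (PP (2 * e) ρ)).card : ℂ)‖) / (I : ℝ) ≤ ε := by
  have hzn : ‖z‖ = 1 := by
    have h1 : ‖z‖ ^ q = 1 := by rw [← norm_pow, hz, norm_one]
    exact (pow_eq_one_iff_of_nonneg (norm_nonneg _) (by omega)).1 h1
  have hε8 : 0 < ε / 8 := by positivity
  obtain ⟨M, hM1, hM⟩ := convK hq hz hφ hψ hε8
  have hconv := hM M le_rfl
  obtain ⟨n, hn⟩ : ∃ n : ℕ, n = 2 * (a + k + 1) + 1 := ⟨_, rfl⟩
  have hn0 : (0 : ℝ) < n := by
    rw [hn]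
    positivity
  obtain ⟨ε₁, hε₁⟩ : ∃ ε₁ : ℝ, ε₁ = ε / 8 / ((M + 1) * n) := ⟨_, rfl⟩
  have hε₁0 : 0 < ε₁ := by
    rw [hε₁]
    positivity
  have hη : (M + 1) * ε₁ * n = ε / 8 := by
    rw [hε₁]
    field_simp
  have hsing : ∀ l s, l ∈ range (M + 1) → ∃ e₀ : ℕ, ∀ e : ℕ, e₀ ≤ e → ∃ δ : ℝ, 0 < δ ∧ ∃ ρ₀ : ℕ,
      ∀ ρ : ℕ, ρ₀ ≤ ρ → ∃ i₀ : ℕ, ∀ i : ℕ, i₀ ≤ i →
      ‖(∑ p ∈ PS (PP e ρ), (p : ℂ) * GP (fun v => gl M l (mu1 v))
        (Whs φ ψ (a + k + 1) s (ul M l)) z (k + 5) p (i + (ρ - (k + 5)))) /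
          ((PS (PP e ρ)).card : ℂ)‖ ≤ ε₁ * (1 + MI q e ρ (2 ^ i) * ρ / (δ * 4 ^ ρ)) := by
    intro l s hl
    have hl' : l ≤ M := by
      have := mem_range.1 hl
      omega
    obtain ⟨h1, h2⟩ := ul_bounds hM1 hl'
    obtain ⟨B, L', hB, hL', hW⟩ := GW_Whs hφ hψ (a + k + 1) s h1 h2
    exact single hq hz hz1 (gl_prop hM1 l).1 (gl_prop hM1 l).2 hB hL' hW
      (fun x y hxy => (Whs_supp hψ hxy).1) (fun x y hxy => (Whs_supp hψ hxy).2) hε₁0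
  choose! e₀ he₀ using hsing
  obtain ⟨e, he⟩ : ∃ e : ℕ, e = ∑ l ∈ range (M + 1), ∑ s ∈ range n, e₀ l s := ⟨_, rfl⟩
  refine ⟨e, fun ρ₀ => ?_⟩
  have hle : ∀ l s, l ∈ range (M + 1) → s ∈ range n → e₀ l s ≤ 2 * e := by
    intro l s hl hs
    have h1 : e₀ l s ≤ ∑ s ∈ range n, e₀ l s :=
      Finset.single_le_sum (f := fun s => e₀ l s) (fun _ _ => Nat.zero_le _) hs
    have h2 : ∑ s ∈ range n, e₀ l s ≤ ∑ l ∈ range (M + 1), ∑ s ∈ range n, e₀ l s :=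
      Finset.single_le_sum (f := fun l => ∑ s ∈ range n, e₀ l s) (fun _ _ => Nat.zero_le _) hl
    omega
  have hs2 := fun l s (hl : l ∈ range (M + 1)) (hs : s ∈ range n) =>
    he₀ l s hl (2 * e) (hle l s hl hs)
  choose! δ hδ ρ₁ hρ₁ using hs2
  obtain ⟨δ', hδ'0, hδ'⟩ := AvgW_min (range (M + 1) ×ˢ range n) (fun t => δ t.1 t.2)
    (fun t ht => hδ t.1 t.2 (Finset.mem_product.1 ht).1 (Finset.mem_product.1 ht).2)
  obtain ⟨ρ₄, hρ₄⟩ := AvgW_PS_nonempty (2 * e)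
  obtain ⟨R, hR⟩ : ∃ R : ℕ, R = ρ₀ + (∑ l ∈ range (M + 1), ∑ s ∈ range n, ρ₁ l s) + ρ₄ + 1 :=
    ⟨_, rfl⟩
  have hρle : ∀ l s, l ∈ range (M + 1) → s ∈ range n → ρ₁ l s ≤ R := by
    intro l s hl hs
    have h1 : ρ₁ l s ≤ ∑ s ∈ range n, ρ₁ l s :=
      Finset.single_le_sum (f := fun s => ρ₁ l s) (fun _ _ => Nat.zero_le _) hs
    have h2 : ∑ s ∈ range n, ρ₁ l s ≤ ∑ l ∈ range (M + 1), ∑ s ∈ range n, ρ₁ l s :=
      Finset.single_le_sum (f := fun l => ∑ s ∈ range n, ρ₁ l s) (fun _ _ => Nat.zero_le _) hl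
    omega
  have hfix : ∀ ρ, R ≤ ρ → ∃ i₀ : ℕ, ∀ i : ℕ, i₀ ≤ i →
      ‖(∑ p ∈ PS (PP (2 * e) ρ), SK a φ ψ z (4 ^ (i + (1 + (ρ - (k + 5)) + (a + k + 1))) / p)) /
        ((PS (PP (2 * e) ρ)).card : ℂ)‖ ≤ ε / 8 + ∑ s ∈ range n,
          ((M + 1) * ε₁) * (1 + MI q (2 * e) ρ (2 ^ (i + s + 1)) * ρ / (δ' * 4 ^ ρ)) := by
    intro ρ hρ
    rw [hn]
    refine AvgW_fixed hzn hφ hψ hε8.le hconv ?_
    intro l s hl hs
    rw [← hn] at hs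
    obtain ⟨i₀, hi₀⟩ := hρ₁ l s hl hs ρ ((hρle l s hl hs).trans hρ)
    refine ⟨i₀, fun i hi => (hi₀ i hi).trans ?_⟩
    refine mul_le_mul_of_nonneg_left ?_ hε₁0.le
    have h1 := hδ' (l, s) (Finset.mem_product.2 ⟨hl, hs⟩)
    have h2 : δ' ≤ δ l s := h1
    have h3 := MI_nonneg q (2 * e) ρ (2 ^ i)
    have h4 : MI q (2 * e) ρ (2 ^ i) * ρ / (δ l s * 4 ^ ρ) ≤
        MI q (2 * e) ρ (2 ^ i) * ρ / (δ' * 4 ^ ρ) := by
      refine div_le_div_of_nonneg_left (by positivity) (by positivity) ?_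
      exact mul_le_mul_of_nonneg_right h2 (by positivity)
    linarith
  choose! i₀ hi₀ using hfix
  obtain ⟨J, I₀, hJ⟩ := good_scale_w hq (2 * e) hδ'0 R
  obtain ⟨S, hS⟩ : ∃ S : ℕ, S = 1 + J + (a + k + 1) := ⟨_, rfl⟩
  obtain ⟨I₁, hI₁⟩ := exists_nat_gt ((ε / 8 * (n + S)) / (ε / 2))
  refine ⟨J, I₀ + I₁ + 1, fun I hI => ?_⟩
  refine ⟨S + (range (J + 1)).sup i₀, fun B hB => ?_⟩
  obtain ⟨ρ, hρR, hρJ, hsum⟩ := hJ (I + n + S) (by omega) (B - S)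
  refine ⟨ρ, by omega, hρJ, hρ₄ ρ (by omega), ?_⟩
  have hI0 : (0 : ℝ) < (I : ℝ) := by exact_mod_cast (by omega : 0 < I)
  have hIn0 : (0 : ℝ) < ((I + n + S : ℕ) : ℝ) := by exact_mod_cast (by omega : 0 < I + n + S)
  have hρ0 : (0 : ℝ) < (ρ : ℝ) := by exact_mod_cast (by omega : 0 < ρ)
  have h4 : (0 : ℝ) < 4 ^ ρ := by positivity
  have hb : i₀ ρ ≤ B - S := by
    have h1 : i₀ ρ ≤ (range (J + 1)).sup i₀ := Finset.le_sup (f := i₀) (mem_range.2 (by omega))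
    omega
  have h1 := AvgW_abs (D := fun j => (∑ p ∈ PS (PP (2 * e) ρ), SK a φ ψ z (4 ^ j / p)) /
      ((PS (PP (2 * e) ρ)).card : ℂ)) (σ := 1 + (ρ - (k + 5)) + (a + k + 1)) (n := n) (S := S)
      (I := I) (b := B - S) (ε := ε / 8) (η := (M + 1) * ε₁)
      (m := fun i => MI q (2 * e) ρ (2 ^ (i + 1)) * ρ / (δ' * 4 ^ ρ)) (fun i => by
        have := MI_nonneg q (2 * e) ρ (2 ^ (i + 1))
        positivity) (by positivity) (by omega) (fun i hi => hi₀ ρ hρR i (hb.trans hi))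
  have hBS : B - S + S = B := by omega
  rw [hBS] at h1
  have h2 : ∑ i ∈ range (I + n + S), MI q (2 * e) ρ (2 ^ (B - S + i + 1)) * ρ / (δ' * 4 ^ ρ) ≤
      I + n + S := by
    rw [← Finset.sum_div, ← Finset.sum_mul, div_le_iff₀ (by positivity)]
    rw [div_le_iff₀ hIn0, div_mul_eq_mul_div, le_div_iff₀ hρ0] at hsum
    push_cast at hsum
    linarith
  have h6 : ε / 8 * (n + S) ≤ ε / 2 * I := by
    have h7 : (ε / 8 * (n + S)) / (ε / 2) ≤ I := by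
      refine hI₁.le.trans ?_
      exact_mod_cast (by omega : I₁ ≤ I)
    rw [div_le_iff₀ (by positivity)] at h7
    linarith
  rw [hη] at h1
  rw [div_le_iff₀ hI0]
  have h8 := mul_le_mul_of_nonneg_left h2 hε8.le
  have h9 : 0 < ε * I := mul_pos hε hI0
  have h10 : ∑ j ∈ range I, ‖(∑ p ∈ PS (PP (2 * e) ρ), SK a φ ψ z (4 ^ (B + j) / p)) /
      ((PS (PP (2 * e) ρ)).card : ℂ)‖ ≤ ε / 8 * I + ε / 8 * I +
      ε / 8 * ∑ i ∈ range (I + n + S), MI q (2 * e) ρ (2 ^ (B - S + i + 1)) * ρ / (δ' * 4 ^ ρ) := h1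
  linarith

end Pool.Agent.Lib.MP_d57abb_nt.AW
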