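import Pool.Agent.Lib.MP_d57abb_nt.AW.BlkW
import Pool.Agent.Lib.MP_d57abb_nt.TS.ThinN

/-!
# Windows of scales: the sharp cutoff of the divisors
-/

namespace Pool.Agent.Lib.MP_d57abb_nt.AW

open Finset Filter Topology Pool.Agent.Lib.MP_d57abb_nt Pool.Agent.Lib.MP_d57abb_nt.TA Pool.Agent.Lib.MP_d57abb_nt.TZ Pool.Agent.Lib.MP_d57abb_nt.TS Pool.Agent.Lib.MP_d57abb_nt.AS

private noncomputable def ShW_tz (c η x : ℝ) : ℝ :=
  max 0 (min 1 (min ((x - 1 / c) / η) ((c - x) / η)))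

private theorem ShW_one {c η x : ℝ} (hη : 0 < η) (h1 : 1 / c + η ≤ x) (h2 : x ≤ c - η) :
    ShW_tz c η x = 1 := by
  unfold ShW_tz
  have h3 : 1 ≤ (x - 1 / c) / η := by
    rw [le_div_iff₀ hη]
    linarith
  have h4 : 1 ≤ (c - x) / η := by
    rw [le_div_iff₀ hη]
    linarith
  rw [min_eq_left (le_min h3 h4), max_eq_right zero_le_one]

private theorem ShW_zero {c η x : ℝ} (hη : 0 < η) (h : x ≤ 1 / c ∨ c ≤ x) :
    ShW_tz c η x = 0 := by
  unfold ShW_tz
  apply max_eq_left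
  apply (min_le_right _ _).trans
  rcases h with h | h
  · exact (min_le_left _ _).trans (div_nonpos_of_nonpos_of_nonneg (by linarith) hη.le)
  · exact (min_le_right _ _).trans (div_nonpos_of_nonpos_of_nonneg (by linarith) hη.le)

private theorem ShW_nn (c η x : ℝ) : 0 ≤ ShW_tz c η x := le_max_left _ _

private theorem ShW_le (c η x : ℝ) : ShW_tz c η x ≤ 1 :=
  max_le zero_le_one (min_le_left _ _)

private theorem ShW_lip {c η : ℝ} (hη : 0 < η) (x y : ℝ) :
    |ShW_tz c η x - ShW_tz c η y| ≤ 1 / η * |x - y| := by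
  have e1 : |(x - 1 / c) / η - (y - 1 / c) / η| = 1 / η * |x - y| := by
    rw [← sub_div, sub_sub_sub_cancel_right, abs_div, abs_of_pos hη]
    ring
  have e2 : |(c - x) / η - (c - y) / η| = 1 / η * |x - y| := by
    rw [← sub_div, sub_sub_sub_cancel_left, abs_div, abs_of_pos hη, abs_sub_comm]
    ring
  have h0 : 0 ≤ 1 / η * |x - y| := by positivity
  unfold ShW_tz
  refine (abs_max_sub_max_le_max _ _ _ _).trans (max_le ?_ ?_)
  · rw [sub_self, abs_zero]
    exact h0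
  · refine (abs_min_sub_min_le_max _ _ _ _).trans (max_le ?_ ?_)
    · rw [sub_self, abs_zero]
      exact h0
    · exact (abs_min_sub_min_le_max _ _ _ _).trans (max_le e1.le e2.le)

private theorem ShW_pw {c η : ℝ} (hc : 1 < c) (hη : 0 < η) :
    ∃ k : ℕ, PW (ShW_tz c η) k (1 / η) := by
  obtain ⟨k, hk⟩ := pow_unbounded_of_one_lt c (by norm_num : (1 : ℝ) < 2)
  refine ⟨k, ⟨ShW_nn c η, ShW_le c η, fun x hx => ?_, ShW_lip hη⟩⟩
  have h1 : 1 / c < x := by
    by_contra h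
    exact hx (ShW_zero hη (Or.inl (not_lt.1 h)))
  have h2 : x < c := by
    by_contra h
    exact hx (ShW_zero hη (Or.inr (not_lt.1 h)))
  have h3 : (1 : ℝ) / 2 ^ k ≤ 1 / c := one_div_le_one_div_of_le (by linarith) hk.le
  exact ⟨by linarith, by linarith⟩

open Classical in
private theorem ShW_pt {c η : ℝ} (hc : 1 < c) (hη : 0 < η) {k : ℕ} (hk : 1 ≤ k) (d : ℕ) :
    |(if (k : ℝ) ≤ c * d ∧ (d : ℝ) ≤ c * k then (1 : ℝ) else 0) - ShW_tz c η ((d : ℝ) / k)| ≤
      (if 1 / c * k ≤ (d : ℝ) ∧ (d : ℝ) ≤ (1 / c + η) * k then (1 : ℝ) else 0) +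
        (if (c - η) * k ≤ (d : ℝ) ∧ (d : ℝ) ≤ c * k then (1 : ℝ) else 0) := by
  have hk0 : (0 : ℝ) < (k : ℝ) := by exact_mod_cast hk
  have hc0 : 0 < c := by linarith
  have hA : (0 : ℝ) ≤ (if 1 / c * k ≤ (d : ℝ) ∧ (d : ℝ) ≤ (1 / c + η) * k then (1 : ℝ) else 0) := by
    split_ifs <;> norm_num
  have hB : (0 : ℝ) ≤ (if (c - η) * k ≤ (d : ℝ) ∧ (d : ℝ) ≤ c * k then (1 : ℝ) else 0) := by
    split_ifs <;> norm_num
  have hx : (d : ℝ) = (d : ℝ) / k * k := by field_simp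
  by_cases hS : (k : ℝ) ≤ c * d ∧ (d : ℝ) ≤ c * k
  · rw [if_pos hS]
    have h1 : 1 / c * k ≤ (d : ℝ) := by
      rw [one_div, inv_mul_le_iff₀ hc0]
      exact hS.1
    by_cases h2 : (d : ℝ) ≤ (1 / c + η) * k
    · rw [if_pos ⟨h1, h2⟩, abs_of_nonneg (by linarith [ShW_le c η ((d : ℝ) / k)])]
      linarith [ShW_nn c η ((d : ℝ) / k)]
    · by_cases h3 : (c - η) * k ≤ (d : ℝ)
      · rw [if_neg (fun h => h2 h.2), if_pos ⟨h3, hS.2⟩, abs_of_nonneg (by linarith [ShW_le c η ((d : ℝ) / k)])]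
        linarith [ShW_nn c η ((d : ℝ) / k)]
      · have h4 : ShW_tz c η ((d : ℝ) / k) = 1 := by
          apply ShW_one hη
          · rw [le_div_iff₀ hk0]
            exact (not_le.1 h2).le
          · rw [div_le_iff₀ hk0]
            exact (not_le.1 h3).le
        rw [h4, sub_self, abs_zero]
        linarith
  · rw [if_neg hS]
    have h4 : ShW_tz c η ((d : ℝ) / k) = 0 := by
      apply ShW_zero hη
      by_cases h5 : (k : ℝ) ≤ c * d
      · right
        rw [le_div_iff₀ hk0]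
        exact (not_le.1 fun h6 => hS ⟨h5, h6⟩).le
      · left
        rw [div_le_iff₀ hk0, one_div, ← div_eq_inv_mul, le_div_iff₀ hc0]
        linarith
    rw [h4, sub_self, abs_zero]
    linarith

/-- the logarithmic sum over a window, sharp weights -/
noncomputable def Lc (c : ℝ) (z : ℂ) (A X : ℕ) : ℂ :=
  ∑ k ∈ Ioc A X, ((tc c k / k : ℝ) : ℂ) * z ^ om k

open Classical in
private theorem ShW_diff {c η : ℝ} (hc : 1 < c) (hη : 0 < η) {z : ℂ} (hz : ‖z‖ = 1) (A X : ℕ) :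
    ‖Lc c z A X - Lw (ShW_tz c η) z A X‖ ≤
      ∑ k ∈ Ioc A X, (wn (1 / c) (1 / c + η) k : ℝ) / k + ∑ k ∈ Ioc A X, (wn (c - η) c k : ℝ) / k := by
  unfold Lc Lw
  rw [← Finset.sum_sub_distrib, ← Finset.sum_add_distrib]
  refine (norm_sum_le _ _).trans (Finset.sum_le_sum fun k hk => ?_)
  have hk1 : 1 ≤ k := by
    have := (Finset.mem_Ioc.1 hk).1
    omega
  have hk0 : (0 : ℝ) < k := by exact_mod_cast hk1
  have e1 : (tc c k : ℝ) = ∑ d ∈ (ff k).divisors,
      (if (k : ℝ) ≤ c * d ∧ (d : ℝ) ≤ c * k then (1 : ℝ) else 0) := by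
    unfold tc
    rw [Finset.sum_boole]
  rw [← sub_mul, norm_mul, norm_pow, hz, one_pow, mul_one, ← Complex.ofReal_sub,
    Complex.norm_real, Real.norm_eq_abs, ← sub_div, ← add_div, abs_div, abs_of_pos hk0, e1]
  refine div_le_div_of_nonneg_right ?_ hk0.le
  unfold tp wn
  rw [← Finset.sum_sub_distrib, ← Finset.sum_boole, ← Finset.sum_boole,
    ← Finset.sum_add_distrib]
  exact (Finset.abs_sum_le_sum_abs _ _).trans
    (Finset.sum_le_sum fun d _ => ShW_pt hc hη hk1 d)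

theorem shW {q : ℕ} (hq : 1 ≤ q) {z : ℂ} (hz : z ^ q = 1) (hz1 : z ≠ 1) {c : ℝ} (hc : 1 < c) {ε : ℝ}
    (hε : 0 < ε) : ∃ K : ℝ, 0 ≤ K ∧ ∀ A X : ℕ, 1 ≤ A → A ≤ X →
      ‖Lc c z A X‖ ≤ ε * Real.log (X / A) + K := by
  have hn : ‖z‖ = 1 := Complex.norm_eq_one_of_pow_eq_one hz (by omega)
  obtain ⟨C, C', hC0, hC'0, hthin⟩ := thinN c hc.le
  have hc0 : 0 < c := by linarith
  have hcc : 0 < c - 1 / c := by
    have h1 : 1 / c < 1 := by
      rw [div_lt_one hc0]
      exact hc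
    linarith
  have hη0 : 0 < min ((c - 1 / c) / 3) (ε / (16 * (C + 1))) := lt_min (by linarith) (by positivity)
  generalize hηd : min ((c - 1 / c) / 3) (ε / (16 * (C + 1))) = η at hη0
  have hη1 : η ≤ (c - 1 / c) / 3 := hηd ▸ min_le_left _ _
  have hη2 : η ≤ ε / (16 * (C + 1)) := hηd ▸ min_le_right _ _
  have hη3 : 8 * (C * η) ≤ ε / 2 := by
    have h1 : C * η ≤ C * (ε / (16 * (C + 1))) := mul_le_mul_of_nonneg_left hη2 hC0.le
    have h2 : C * (ε / (16 * (C + 1))) ≤ ε / 16 := by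
      rw [mul_div_assoc', div_le_div_iff₀ (by positivity) (by norm_num)]
      nlinarith
    linarith
  obtain ⟨k, hpw⟩ := ShW_pw hc hη0
  obtain ⟨K, hK, hsm⟩ := smW hq hz hz1 hpw (half_pos hε)
  refine ⟨K + 2 * (8 * (C * η) + 4 * C'), by positivity, fun A X hA hX => ?_⟩
  have hCη : 0 ≤ C * η := by positivity
  have ht1 := dy_win (f := fun k => (wn (1 / c) (1 / c + η) k : ℝ)) (fun _ => Nat.cast_nonneg _) hCη hC'0.le
    (fun N => by
      have := hthin (1 / c) (1 / c + η) le_rfl (by linarith) (by linarith) N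
      rw [add_sub_cancel_left] at this
      exact this) hA hX
  have ht2 := dy_win (f := fun k => (wn (c - η) c k : ℝ)) (fun _ => Nat.cast_nonneg _) hCη hC'0.le
    (fun N => by
      have := hthin (c - η) c (by linarith) (by linarith) le_rfl N
      rw [sub_sub_cancel] at this
      exact this) hA hX
  have hd := ShW_diff hc hη0 hn A X
  have hs := hsm A X hA hX
  have h5 := norm_add_le (Lc c z A X - Lw (ShW_tz c η) z A X) (Lw (ShW_tz c η) z A X)
  rw [sub_add_cancel] at h5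
  have hl : 0 ≤ Real.log ((X : ℝ) / A) := by
    apply Real.log_nonneg
    have hA0 : (0 : ℝ) < A := by exact_mod_cast hA
    rw [le_div_iff₀ hA0, one_mul]
    exact_mod_cast hX
  have h6 : 8 * (C * η) * Real.log (X / A) ≤ ε / 2 * Real.log (X / A) := mul_le_mul_of_nonneg_right hη3 hl
  linarith

end Pool.Agent.Lib.MP_d57abb_nt.AW
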